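import Mathlib

/-!
The logarithmic shear on a group with a left invariant length metric.
-/

set_option autoImplicit false

open Metric Set Filter Topology
open scoped Pointwise

namespace Pool.Agent.Lib.MP_40d5d3_al.All

variable {G : Type*} [Group G] [MetricSpace G] [IsIsometricSMul G G]

/-- approximate midpoints -/
def Mid (G : Type*) [MetricSpace G] : Prop :=
  ∀ p q : G, ∀ ε > 0, ∃ c, dist p c ≤ dist p q / 2 + ε ∧ dist c q ≤ dist p q / 2 + ε

theorem dist_eq (p q : G) : dist p q = dist 1 (p⁻¹ * q) := by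
  rw [← dist_mul_left p⁻¹ p q, inv_mul_cancel]

theorem len_mul (a b : G) : dist 1 (a * b) ≤ dist 1 a + dist 1 b := by
  have := dist_triangle 1 a (a * b)
  rwa [dist_eq a (a * b), inv_mul_cancel_left] at this

theorem len_inv (a : G) : dist 1 a⁻¹ = dist 1 a := by
  rw [dist_comm 1 a, dist_eq a 1, mul_one]

theorem len_pow (a : G) (n : ℕ) : dist 1 (a ^ n) ≤ n * dist 1 a := by
  induction n with
  | zero => simp
  | succ n ih =>
    rw [pow_succ]; push_cast
    linarith [len_mul (a ^ n) a]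

theorem Mid.split (h : Mid G) {g : G} {r : ℝ} (hg : dist 1 g < 2 * r) :
    ∃ a b : G, g = a * b ∧ dist 1 a < r ∧ dist 1 b < r := by
  obtain ⟨c, h1, h2⟩ := h 1 g ((2 * r - dist 1 g) / 4) (by linarith)
  refine ⟨c, c⁻¹ * g, by simp, by linarith, ?_⟩
  rw [← dist_eq]; linarith

theorem Mid.proper [IsTopologicalGroup G] [WeaklyLocallyCompactSpace G] (h : Mid G) :
    ProperSpace G := by
  obtain ⟨ε, hε, hK⟩ := exists_isCompact_closedBall (1 : G)
  have key : ∀ n : ℕ, ∃ K : Set G, IsCompact K ∧ ∀ g : G, dist 1 g < 2 ^ n * ε → g ∈ K := by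
    intro n
    induction n with
    | zero => exact ⟨_, hK, fun g hg => by
        rw [mem_closedBall, dist_comm]; simpa using hg.le⟩
    | succ n ih =>
      obtain ⟨K, h1, h2⟩ := ih
      refine ⟨K * K, h1.mul h1, fun g hg => ?_⟩
      obtain ⟨a, b, rfl, ha, hb⟩ := h.split (r := 2 ^ n * ε) (g := g) (by
        rw [pow_succ] at hg; linarith)
      exact Set.mul_mem_mul (h2 a ha) (h2 b hb)
  refine ProperSpace.of_isCompact_closedBall_of_le 0 fun x r _ => ?_
  obtain ⟨n, hn⟩ := pow_unbounded_of_one_lt ((dist 1 x + r) / ε) (one_lt_two (α := ℝ))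
  obtain ⟨K, h1, h2⟩ := key n
  refine h1.of_isClosed_subset isClosed_closedBall fun g hg => h2 g ?_
  rw [div_lt_iff₀ hε] at hn
  rw [mem_closedBall, dist_comm] at hg
  linarith [dist_triangle 1 x g]

/-- a subadditive function that is bounded on the unit ball has linear growth -/
theorem Mid.linear (h : Mid G) {ν : G → ℝ} (hs : ∀ a b, ν (a * b) ≤ ν a + ν b) {M : ℝ}
    (hM0 : 0 ≤ M) (hM : ∀ g, dist 1 g < 1 → ν g ≤ M) (g : G) : ν g ≤ 2 * M * (1 + dist 1 g) := by
  have key : ∀ n : ℕ, ∀ g : G, dist 1 g < 2 ^ n → ν g ≤ 2 ^ n * M := by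
    intro n
    induction n with
    | zero => intro g hg; simpa using hM g (by simpa using hg)
    | succ n ih =>
      intro g hg
      obtain ⟨a, b, rfl, ha, hb⟩ := h.split (r := 2 ^ n) (g := g) (by
        rw [pow_succ] at hg; linarith)
      rw [pow_succ]
      linarith [hs a b, ih a ha, ih b hb]
  have h1 : (1 : ℝ) ≤ 1 + dist 1 g := by linarith [dist_nonneg (x := (1 : G)) (y := g)]
  obtain ⟨n, hn1, hn2⟩ := exists_nat_pow_near h1 (one_lt_two (α := ℝ))
  have := key (n + 1) g (by linarith)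
  rw [pow_succ] at this
  nlinarith

/-- a continuous homomorphism from a proper normed space has linear growth -/
theorem hom_linear {W : Type*} [NormedAddCommGroup W] [NormedSpace ℝ W] [ProperSpace W]
    {ι : W → G} (hc : Continuous ι) (ha : ∀ x y, ι (x + y) = ι x * ι y) :
    ∃ M : ℝ, 0 ≤ M ∧ ∀ x, dist 1 (ι x) ≤ M * (1 + ‖x‖) := by
  obtain ⟨M, hM⟩ := (isCompact_closedBall (0 : W) 1).bddAbove_image
    (f := fun x => dist 1 (ι x)) (continuous_const.dist hc).continuousOn
  have hM' : ∀ x, ‖x‖ ≤ 1 → dist 1 (ι x) ≤ M := fun x hx => hM ⟨x, by simpa using hx, rfl⟩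
  have h0 : ι 0 = 1 := by
    have := ha 0 0
    rw [add_zero] at this
    exact left_eq_mul.1 this
  have hp : ∀ (n : ℕ) x, ι ((n : ℝ) • x) = ι x ^ n := by
    intro n x
    induction n with
    | zero => simp [h0]
    | succ n ih => rw [Nat.cast_succ, add_smul, one_smul, ha, ih, pow_succ]
  have hM0 : 0 ≤ M := dist_nonneg.trans (hM' 0 (by simp))
  refine ⟨M, hM0, fun x => ?_⟩
  set n : ℕ := ⌊‖x‖⌋₊ + 1 with hn
  have hn1 : ‖x‖ < n := by rw [hn]; push_cast; exact Nat.lt_floor_add_one _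
  have hn2 : (n : ℝ) ≤ 1 + ‖x‖ := by
    rw [hn]; push_cast; linarith [Nat.floor_le (norm_nonneg x)]
  have hn0 : (0 : ℝ) < n := (norm_nonneg x).trans_lt hn1
  have e : x = (n : ℝ) • ((n : ℝ)⁻¹ • x) := by rw [smul_smul, mul_inv_cancel₀ hn0.ne', one_smul]
  have h2 : ‖(n : ℝ)⁻¹ • x‖ ≤ 1 := by
    rw [norm_smul, norm_inv, Real.norm_eq_abs, abs_of_pos hn0, inv_mul_le_iff₀ hn0]; linarith
  calc dist 1 (ι x) = dist 1 (ι ((n : ℝ)⁻¹ • x) ^ n) := by rw [← hp, ← e]
    _ ≤ n * dist 1 (ι ((n : ℝ)⁻¹ • x)) := len_pow _ _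
    _ ≤ (1 + ‖x‖) * M := mul_le_mul hn2 (hM' _ h2) dist_nonneg (by positivity)
    _ = _ := mul_comm _ _

theorem log_sub_le {a b d : ℝ} (ha : 0 ≤ a) (hab : a ≤ b) (hd : b ≤ a + d) :
    |Real.log (1 + b) - Real.log (1 + a)| * (1 + a) ≤ d := by
  have h1 : 0 < 1 + a := by linarith
  have h2 : Real.log (1 + a) ≤ Real.log (1 + b) := Real.log_le_log h1 (by linarith)
  rw [abs_of_nonneg (by linarith), ← Real.log_div (by linarith) h1.ne']
  have h3 := Real.log_le_sub_one_of_pos (div_pos (by linarith : 0 < 1 + b) h1)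
  have h4 : ((1 + b) / (1 + a) - 1) * (1 + a) = b - a := by field_simp; ring
  nlinarith

/-- The shear along a one parameter group of the second centre. -/
theorem shear [IsTopologicalGroup G] [ProperSpace G] (h : Mid G)
    {W : Type*} [NormedAddCommGroup W] [NormedSpace ℝ W] [ProperSpace W]
    {v : ℝ → G} (vc : Continuous v) (va : ∀ s t, v (s + t) = v s * v t)
    {ι : W → G} (ic : Continuous ι) (ia : ∀ x y, ι (x + y) = ι x * ι y)
    {β : G → W} (bc : Continuous β) (ba : ∀ p q, β (p * q) = β p + β q)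
    (hv : ∀ p t, p⁻¹ * v t * p = v t * ι (t • β p)) {q : G}
    (hq : ∀ K : Set G, IsCompact K → ∃ R : ℝ, ∀ t, ι (t • β q) ∈ K → |t| ≤ R) :
    ∃ f : G → G, (∃ C : ℝ, 0 ≤ C ∧ ∀ p p', (2 : ℝ)⁻¹ * dist p p' - C ≤ dist (f p) (f p') ∧
        dist (f p) (f p') ≤ 2 * dist p p' + C) ∧ Function.Surjective f ∧
      ∀ (g : G) (D : ℝ), ∃ R : ℝ, ∀ k ∈ Subgroup.center G, ∀ k' ∈ Subgroup.center G,
        dist (f k) (g * k') ≤ D → dist 1 k ≤ R := by
  obtain ⟨M1, hM1, h1⟩ := hom_linear vc va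
  obtain ⟨M2, hM2, h2⟩ := hom_linear ic ia
  obtain ⟨M, hM⟩ := (isCompact_closedBall (1 : G) 1).bddAbove_image
    (f := fun g => ‖β g‖) bc.norm.continuousOn
  have hM' : ∀ g : G, dist 1 g < 1 → ‖β g‖ ≤ M := fun g hg =>
    hM ⟨g, by rw [mem_closedBall, dist_comm]; exact hg.le, rfl⟩
  have hM0 : 0 ≤ M := (norm_nonneg _).trans (hM' 1 (by simp))
  have h3 := h.linear (ν := fun g => ‖β g‖) (fun a b => by rw [ba]; exact norm_add_le _ _) hM0 hM'
  set A : ℝ := M1 + M2 * (2 * M) with hA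
  have hA0 : 0 ≤ A := by positivity
  set ε : ℝ := 1 / (2 * (A + 1)) with hε
  have hε0 : 0 < ε := by positivity
  have hεA : A * ε ≤ 1 / 2 := by
    rw [hε, mul_one_div, div_le_div_iff₀ (by positivity) (by positivity)]; linarith
  have v0 : v 0 = 1 := by
    have := va 0 0
    rw [add_zero] at this
    exact left_eq_mul.1 this
  have vn : ∀ t, v (-t) = (v t)⁻¹ := fun t =>
    eq_inv_of_mul_eq_one_left (by rw [← va, neg_add_cancel, v0])
  let φ : G → ℝ := fun p => ε * Real.log (1 + dist 1 p)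
  have key : ∀ p p' : G, dist 1 p ≤ dist 1 p' →
      (2 : ℝ)⁻¹ * dist p p' - (M1 + M2) ≤ dist (v (φ p) * p) (v (φ p') * p') ∧
        dist (v (φ p) * p) (v (φ p') * p') ≤ 2 * dist p p' + (M1 + M2) := by
    intro p p' hp
    set Δ := φ p' - φ p with hΔ
    have e1 : (v (φ p) * p)⁻¹ * (v (φ p') * p') = (p⁻¹ * v Δ * p) * (p⁻¹ * p') := by
      rw [hΔ, sub_eq_neg_add, va, vn]; group
    have hd := dist_nonneg (x := p) (y := p')
    have hp0 := dist_nonneg (x := (1 : G)) (y := p)
    have a1 : |Δ| * (1 + dist 1 p) ≤ ε * dist p p' := by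
      have := log_sub_le hp0 hp (dist_triangle 1 p p')
      have e2 : Δ = ε * (Real.log (1 + dist 1 p') - Real.log (1 + dist 1 p)) := by
        simp only [hΔ, φ]; ring
      rw [e2, abs_mul, abs_of_pos hε0, mul_assoc]
      exact mul_le_mul_of_nonneg_left this hε0.le
    have a2 : |Δ| ≤ ε * dist p p' := by nlinarith [abs_nonneg Δ]
    have a3 : ‖Δ • β p‖ ≤ 2 * M * (ε * dist p p') := by
      rw [norm_smul, Real.norm_eq_abs]
      calc |Δ| * ‖β p‖ ≤ |Δ| * (2 * M * (1 + dist 1 p)) :=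
            mul_le_mul_of_nonneg_left (h3 p) (abs_nonneg _)
        _ = 2 * M * (|Δ| * (1 + dist 1 p)) := by ring
        _ ≤ _ := mul_le_mul_of_nonneg_left a1 (by positivity)
    have a4 : dist 1 (p⁻¹ * v Δ * p) ≤ dist p p' / 2 + (M1 + M2) := by
      rw [hv]
      have b1 := h1 Δ
      rw [Real.norm_eq_abs] at b1
      have b2 := h2 (Δ • β p)
      have b3 := mul_le_mul_of_nonneg_left a2 hM1
      have b4 := mul_le_mul_of_nonneg_left a3 hM2
      have b5 := mul_le_mul_of_nonneg_right hεA hd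
      have b6 : A * ε * dist p p'
          = M1 * (ε * dist p p') + M2 * (2 * M * (ε * dist p p')) := by rw [hA]; ring
      linarith [len_mul (v Δ) (ι (Δ • β p))]
    rw [dist_eq (v (φ p) * p), e1]
    have a5 := len_mul (p⁻¹ * v Δ * p) (p⁻¹ * p')
    have a6 := len_mul (p⁻¹ * v Δ * p)⁻¹ ((p⁻¹ * v Δ * p) * (p⁻¹ * p'))
    rw [inv_mul_cancel_left, len_inv] at a6
    rw [← dist_eq p p'] at a5 a6
    constructor <;> linarith
  refine ⟨fun p => v (φ p) * p, ⟨M1 + M2, by positivity, fun p p' => ?_⟩, fun y => ?_,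
    fun g D => ?_⟩
  · rcases le_total (dist 1 p) (dist 1 p') with hp | hp
    · exact key p p' hp
    · rw [dist_comm p p', dist_comm (v (φ p) * p)]
      exact key p' p hp
  · have hy := dist_nonneg (x := (1 : G)) (y := y)
    have hc : Continuous fun s : ℝ => φ (v (-s) * y) - s := by
      refine (continuous_const.mul (Continuous.log (continuous_const.add (continuous_const.dist
        ((vc.comp continuous_neg).mul continuous_const))) fun s => ?_)).sub continuous_id
      exact (add_pos_of_pos_of_nonneg one_pos dist_nonneg).ne'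
    set S : ℝ := 2 * ε * (M1 + dist 1 y) with hS
    have hS0 : 0 ≤ S := by positivity
    have c1 : φ (v (-S) * y) - S ≤ 0 := by
      have b1 := h1 (-S)
      rw [norm_neg, Real.norm_eq_abs, abs_of_nonneg hS0] at b1
      have b2 := len_mul (v (-S)) y
      have b3 := Real.log_le_sub_one_of_pos (x := 1 + dist 1 (v (-S) * y)) (by positivity)
      have b4 : Real.log (1 + dist 1 (v (-S) * y)) ≤ M1 * (1 + S) + dist 1 y := by linarith
      have b5 := mul_le_mul_of_nonneg_left b4 hε0.le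
      have b6 : M1 * ε ≤ 1 / 2 := by
        refine le_trans (mul_le_mul_of_nonneg_right ?_ hε0.le) hεA
        rw [hA]; exact le_add_of_nonneg_right (by positivity)
      have b7 := mul_le_mul_of_nonneg_right b6 hS0
      simp only [φ]
      nlinarith
    have c2 : 0 ≤ φ (v (-0) * y) - 0 := by
      rw [sub_zero]
      exact mul_nonneg hε0.le (Real.log_nonneg (le_add_of_nonneg_right dist_nonneg))
    obtain ⟨s, -, hs⟩ := intermediate_value_Icc' hS0 hc.continuousOn ⟨c1, c2⟩
    refine ⟨v (-s) * y, ?_⟩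
    have hs' : φ (v (-s) * y) = s := sub_eq_zero.1 hs
    simp only [hs']
    rw [vn, mul_inv_cancel_left]
  · obtain ⟨R, hR⟩ := hq _ ((isCompact_closedBall (1 : G) D).image
      (f := fun b => (g * b)⁻¹ * (q⁻¹ * (g * b) * q)) (by fun_prop))
    refine ⟨Real.exp (R / ε), fun k hk k' hk' hD => ?_⟩
    have c1 : |φ k| ≤ R := by
      refine hR _ ⟨(g * k')⁻¹ * (v (φ k) * k), ?_, ?_⟩
      · rw [mem_closedBall, dist_comm, ← dist_eq, dist_comm]; exact hD
      · have e1 : g * ((g * k')⁻¹ * (v (φ k) * k)) = v (φ k) * (k'⁻¹ * k) := by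
          have := Subgroup.mem_center_iff.1 (inv_mem hk')
          rw [mul_inv_rev, ← this g⁻¹, ← mul_assoc, ← mul_assoc g, mul_inv_cancel, one_mul,
            ← mul_assoc, ← this, mul_assoc]
        have e2 := Subgroup.mem_center_iff.1 (mul_mem (inv_mem hk') hk)
        simp only
        rw [e1, ← mul_assoc q⁻¹, mul_assoc _ (k'⁻¹ * k) q, ← e2 q, ← mul_assoc _ q, hv,
          mul_assoc (v _), e2 (ι _)]
        group
    have c2 : Real.log (1 + dist 1 k) ≤ R / ε := by
      rw [le_div_iff₀ hε0, mul_comm]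
      exact (le_abs_self _).trans c1
    rw [Real.log_le_iff_le_exp (by positivity)] at c2
    linarith

end Pool.Agent.Lib.MP_40d5d3_al.All
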