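import Pool.Agent.Lib.MP_40d5d3_al.All.Core

/-!
Groups with exponential coordinates: real powers, the centre as a vector space.
-/

set_option autoImplicit false
set_option linter.unusedSectionVars false

open Metric Set Filter Topology
open scoped Pointwise commutatorElement IsMulCommutative

namespace Pool.Agent.Lib.MP_40d5d3_al.All

variable {G : Type} [Group G] [TopologicalSpace G] [IsTopologicalGroup G]
  {E : Type} [NormedAddCommGroup E] [NormedSpace ℝ E] (ex : E ≃ₜ G)

/-- real powers -/
noncomputable def pw (g : G) (t : ℝ) : G := ex (t • ex.symm g)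

theorem pw_cont : Continuous fun x : G × ℝ => pw ex x.1 x.2 := by
  unfold pw; fun_prop

theorem pw_cont1 (g : G) : Continuous (pw ex g) := by
  unfold pw; fun_prop

theorem pw_one (g : G) : pw ex g 1 = g := by simp [pw]

theorem pw_pw (g : G) (s t : ℝ) : pw ex (pw ex g s) t = pw ex g (t * s) := by
  simp [pw, smul_smul]

theorem hom_zero {c : ℝ → G} (h : ∀ s t, c (s + t) = c s * c t) : c 0 = 1 := by
  have := h 0 0
  rw [add_zero] at this
  exact left_eq_mul.1 this

theorem hom_nat {c : ℝ → G} (h : ∀ s t, c (s + t) = c s * c t) (t : ℝ) (n : ℕ) :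
    c (n * t) = c t ^ n := by
  induction n with
  | zero => simp [hom_zero h]
  | succ n ih => rw [Nat.cast_succ, add_mul, one_mul, h, ih, pow_succ]

variable {ex} (hex : ∀ (X : E) (s t : ℝ), ex ((s + t) • X) = ex (s • X) * ex (t • X))
include hex

theorem pw_add (g : G) (s t : ℝ) : pw ex g (s + t) = pw ex g s * pw ex g t := hex _ _ _

theorem pw_unique {c : ℝ → G} (hc : Continuous c) (h : ∀ s t, c (s + t) = c s * c t) (t : ℝ) :
    c t = pw ex (c 1) t := by
  have : T2Space G := ex.t2Space
  let S : AddSubgroup ℝ :=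
    { carrier := {t | c t = pw ex (c 1) t}
      zero_mem' := (hom_zero h).trans (hom_zero (pw_add hex _)).symm
      add_mem' := fun {a b} ha hb => by
        simp only [mem_ofPred_eq] at ha hb ⊢
        rw [h, pw_add hex, ← ha, ← hb]
      neg_mem' := fun {a} ha => by
        simp only [mem_ofPred_eq] at ha ⊢
        have h1 := h (-a) a
        have h2 := pw_add hex (c 1) (-a) a
        rw [neg_add_cancel, hom_zero h] at h1
        rw [neg_add_cancel, hom_zero (pw_add hex _), ← ha] at h2
        exact mul_right_cancel (h1.symm.trans h2) }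
  have hd : Dense (S : Set ℝ) := by
    refine S.dense_of_not_isolated_zero fun ε hε => ?_
    obtain ⟨n, hn⟩ := exists_nat_one_div_lt hε
    have h0 : (0 : ℝ) < (n : ℝ) + 1 := by positivity
    refine ⟨1 / ((n : ℝ) + 1), ?_, by positivity, hn⟩
    show c _ = pw ex (c 1) _
    have h1 := hom_nat h (1 / ((n : ℝ) + 1)) (n + 1)
    have h2 := hom_nat (pw_add hex (c (1 / ((n : ℝ) + 1)))) 1 (n + 1)
    push_cast at h1 h2
    rw [mul_one_div_cancel h0.ne'] at h1
    rw [pw_one, mul_one, ← h1] at h2
    rw [← h2, pw_pw, one_div_mul_cancel h0.ne', pw_one]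
  have hcl : IsClosed (S : Set ℝ) := isClosed_eq hc (pw_cont1 ex _)
  have : t ∈ (S : Set ℝ) := by rw [← hcl.closure_eq, hd.closure_eq]; trivial
  exact this

theorem pw_conj (p g : G) (t : ℝ) : p⁻¹ * pw ex g t * p = pw ex (p⁻¹ * g * p) t := by
  have := pw_unique hex (c := fun t => p⁻¹ * pw ex g t * p)
    ((continuous_const.mul (pw_cont1 ex g)).mul continuous_const)
    (fun s t => by rw [pw_add hex]; group) t
  simpa only [pw_one] using this

theorem pw_center {z : G} (hz : z ∈ Subgroup.center G) (t : ℝ) :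
    pw ex z t ∈ Subgroup.center G := by
  rw [Subgroup.mem_center_iff] at hz ⊢
  intro p
  have := pw_conj hex p z t
  rw [mul_assoc p⁻¹ z, ← hz, inv_mul_cancel_left, mul_assoc, inv_mul_eq_iff_eq_mul] at this
  exact this.symm

theorem pw_mul_center (g : G) {z : G} (hz : z ∈ Subgroup.center G) (t : ℝ) :
    pw ex (g * z) t = pw ex g t * pw ex z t := by
  have := pw_unique hex (c := fun t => pw ex g t * pw ex z t)
    ((pw_cont1 ex g).mul (pw_cont1 ex z)) (fun s t => by
      rw [pw_add hex, pw_add hex, mul_assoc, mul_assoc, ← mul_assoc (pw ex g t),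
        Subgroup.mem_center_iff.1 (pw_center hex hz s) (pw ex g t), mul_assoc]) t
  simpa only [pw_one] using this.symm

theorem pw_proper {z : G} (hz : z ≠ 1) (K : Set G) (hK : IsCompact K) :
    ∃ R : ℝ, ∀ t, pw ex z t ∈ K → |t| ≤ R := by
  obtain ⟨M, hM⟩ := hK.bddAbove_image (f := fun g => ‖ex.symm g‖) (by fun_prop)
  have h0 : 0 < ‖ex.symm z‖ := by
    rw [norm_pos_iff]
    intro h
    apply hz
    rw [← pw_one ex z, ← hom_zero (pw_add hex z), pw, pw, h, smul_zero, smul_zero]
  refine ⟨M / ‖ex.symm z‖, fun t ht => ?_⟩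
  have := hM ⟨_, ht, rfl⟩
  simp only [pw, Homeomorph.symm_apply_apply, norm_smul, Real.norm_eq_abs] at this
  rwa [le_div_iff₀ h0]

/-- The centre is a finite dimensional vector group. -/
theorem center_coord [FiniteDimensional ℝ E] : ∃ (k : ℕ) (ι : (Fin k → ℝ) → G)
    (lg : Subgroup.center G → Fin k → ℝ), Continuous ι ∧ (∀ x y, ι (x + y) = ι x * ι y) ∧
      Continuous lg ∧ (∀ a b, lg (a * b) = lg a + lg b) ∧
      ∀ (a : Subgroup.center G) (t : ℝ), ι (t • lg a) = pw ex a t := by
  have : T2Space G := ex.t2Space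
  have : ProperSpace E := FiniteDimensional.proper_real E
  have : LocallyCompactSpace G := ex.symm.isClosedEmbedding.locallyCompactSpace
  have hcl : IsClosed (Subgroup.center G : Set G) := by
    have := Set.isClosed_centralizer (Set.univ : Set G)
    rwa [Set.centralizer_univ] at this
  have : LocallyCompactSpace (Subgroup.center G) :=
    hcl.isClosedEmbedding_subtypeVal.locallyCompactSpace
  let V := Additive (Subgroup.center G)
  let : SMul ℝ V := ⟨fun t a => Additive.ofMul ⟨pw ex (a.toMul : G) t, pw_center hex a.toMul.2 t⟩⟩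
  have hs : ∀ (t : ℝ) (a : V), (((t • a).toMul : Subgroup.center G) : G) = pw ex (a.toMul : G) t :=
    fun _ _ => rfl
  let : Module ℝ V := Module.ofMinimalAxioms
    (fun t a b => Subtype.ext (pw_mul_center hex _ b.toMul.2 t))
    (fun s t a => Subtype.ext (pw_add hex _ s t))
    (fun s t a => Subtype.ext (pw_pw ex _ t s).symm)
    (fun a => Subtype.ext (pw_one ex _))
  have : ContinuousSMul ℝ V := ⟨Continuous.subtype_mk
    ((pw_cont ex).comp ((continuous_subtype_val.comp continuous_snd).prodMk continuous_fst)) _⟩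
  have : T2Space V := inferInstanceAs (T2Space (Subgroup.center G))
  have : FiniteDimensional ℝ V := FiniteDimensional.of_locallyCompactSpace ℝ
  let e : V ≃L[ℝ] (Fin (Module.finrank ℝ V) → ℝ) :=
    ContinuousLinearEquiv.ofFinrankEq (Module.finrank_fin_fun ℝ).symm
  refine ⟨_, fun x => ((e.symm x).toMul : Subgroup.center G), fun a => e (Additive.ofMul a),
    continuous_subtype_val.comp e.symm.continuous, fun x y => ?_, e.continuous, fun a b => ?_,
    fun a t => ?_⟩
  · simp only [map_add]; rfl
  · exact map_add e (Additive.ofMul a) (Additive.ofMul b)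
  · simp only [map_smul, ContinuousLinearEquiv.symm_apply_apply]; rfl

end Pool.Agent.Lib.MP_40d5d3_al.All
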