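import Pool.Agent.Lib.MP_40d5d3_al.All.Exp

/-!
Every non-abelian nilpotent group with exponential coordinates has a shear that moves the last
term of the lower central series away from all its cosets.
-/

set_option autoImplicit false
set_option linter.unusedSectionVars false

open Metric Set Filter Topology
open scoped Pointwise commutatorElement

namespace Pool.Agent.Lib.MP_40d5d3_al.All

theorem exists_second {G : Type} [Group G] [h : Group.IsNilpotent G]
    (hnc : ¬ ∀ a b : G, a * b = b * a) :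
    ∃ i, (⊤ : Subgroup G).lowerCentralSeries i ≠ ⊥ ∧
      (⊤ : Subgroup G).lowerCentralSeries i ≤ Subgroup.center G ∧
      ∃ v q : G, (∀ p, v⁻¹ * (p⁻¹ * v * p) ∈ Subgroup.center G) ∧ v⁻¹ * (q⁻¹ * v * q) ≠ 1 := by
  classical
  have hex := Subgroup.nilpotent_iff_lowerCentralSeries.1 h
  have h0 := Nat.find_spec hex
  have h1 : ¬ (⊤ : Subgroup G).lowerCentralSeries 1 = ⊥ := fun h1 => hnc fun a b => by
    rw [Subgroup.lowerCentralSeries_succ, Subgroup.commutator_eq_bot_iff_le_centralizer] at h1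
    exact (h1 (Subgroup.mem_top a) b (Subgroup.mem_top b)).symm
  have h2 : 2 ≤ Nat.find hex := by
    by_contra hlt
    exact h1 (le_bot_iff.1 (h0 ▸ Subgroup.lowerCentralSeries_antitone ⊤ (by omega)))
  obtain ⟨m, hm⟩ := Nat.exists_eq_add_of_le' h2
  have h3 : ¬ (⊤ : Subgroup G).lowerCentralSeries (m + 1) = ⊥ := Nat.find_min hex (by omega)
  rw [hm, Subgroup.lowerCentralSeries_succ, Subgroup.commutator_eq_bot_iff_le_centralizer] at h0
  have h4 : (⊤ : Subgroup G).lowerCentralSeries (m + 1) ≤ Subgroup.center G := fun z hz =>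
    Subgroup.mem_center_iff.2 fun g => h0 hz g (Subgroup.mem_top g)
  refine ⟨m + 1, h3, h4, ?_⟩
  rw [Subgroup.lowerCentralSeries_succ, Subgroup.commutator_eq_bot_iff_le_centralizer] at h3
  obtain ⟨v, hv, hv'⟩ := SetLike.not_le_iff_exists.1 h3
  rw [Subgroup.mem_centralizer_iff] at hv'
  push Not at hv'
  obtain ⟨q, -, hq⟩ := hv'
  refine ⟨v, q, fun p => h4 ?_, fun e => hq ?_⟩
  · have := Subgroup.commutator_mem_commutator (inv_mem hv) (Subgroup.mem_top p⁻¹)
    rw [commutatorElement_def, inv_inv, inv_inv] at this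
    rw [Subgroup.lowerCentralSeries_succ]
    simpa only [mul_assoc] using this
  · rw [inv_mul_eq_one, mul_assoc, eq_inv_mul_iff_mul_eq] at e
    exact e

variable {G : Type} [Group G] [MetricSpace G] [IsTopologicalGroup G] [IsIsometricSMul G G]

theorem breaks [Group.IsNilpotent G] {E : Type} [NormedAddCommGroup E] [NormedSpace ℝ E]
    [FiniteDimensional ℝ E] {ex : E ≃ₜ G}
    (hex : ∀ (X : E) (s t : ℝ), ex ((s + t) • X) = ex (s • X) * ex (t • X)) (hmid : Mid G)
    (hnc : ¬ ∀ a b : G, a * b = b * a) :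
    ∃ f : G → G, (∃ C : ℝ, 0 ≤ C ∧ ∀ p p', (2 : ℝ)⁻¹ * dist p p' - C ≤ dist (f p) (f p') ∧
        dist (f p) (f p') ≤ 2 * dist p p' + C) ∧ Function.Surjective f ∧
      ∃ i, (⊤ : Subgroup G).lowerCentralSeries i ≠ ⊥ ∧ ∀ (g : G) (D : ℝ),
        ∃ k ∈ (⊤ : Subgroup G).lowerCentralSeries i,
          ∀ k' ∈ (⊤ : Subgroup G).lowerCentralSeries i, D < dist (f k) (g * k') := by
  have : ProperSpace E := FiniteDimensional.proper_real E
  have : LocallyCompactSpace G := ex.symm.isClosedEmbedding.locallyCompactSpace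
  have : ProperSpace G := hmid.proper
  obtain ⟨i, hi, hic, v, q, hv, hq⟩ := exists_second hnc
  obtain ⟨k, ι, lg, ic, ia, lc, la, hl⟩ := center_coord hex
  let z : G → Subgroup.center G := fun p => ⟨_, hv p⟩
  have zc : Continuous z := Continuous.subtype_mk (by fun_prop) _
  have zv : ∀ p, p⁻¹ * v * p = v * z p := fun p => (mul_inv_cancel_left _ _).symm
  have za : ∀ p p', z (p * p') = z p * z p' := fun p p' => Subtype.ext (by
    apply mul_left_cancel (a := v)
    have c := Subgroup.mem_center_iff.1 (z p).2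
    calc v * z (p * p') = p'⁻¹ * (p⁻¹ * v * p) * p' := by rw [← zv]; group
      _ = p'⁻¹ * v * p' * z p := by rw [zv, mul_assoc _ p' (z p), c p']; group
      _ = _ := by rw [zv, mul_assoc, c]; rfl)
  obtain ⟨f, hf, hs, hfar⟩ := shear hmid (pw_cont1 ex v) (pw_add hex v) ic ia
    (β := fun p => lg (z p)) (lc.comp zc) (fun p p' => by rw [za, la])
    (fun p t => by rw [hl, pw_conj hex, zv, pw_mul_center hex _ (z p).2]) (q := q)
    (fun K hK => by simpa only [hl] using pw_proper hex hq K hK)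
  refine ⟨f, hf, hs, i, hi, fun g D => ?_⟩
  obtain ⟨R, hR⟩ := hfar g D
  obtain ⟨⟨a, ha⟩, ha1⟩ := Subgroup.ne_bot_iff_exists_ne_one.1 hi
  have ha2 : a ≠ 1 := fun e => ha1 (Subtype.ext e)
  obtain ⟨S, hS⟩ := pw_proper hex ha2 _ (isCompact_closedBall (1 : G) R)
  obtain ⟨n, hn⟩ := exists_nat_gt S
  refine ⟨a ^ n, pow_mem ha n, fun k' hk' => ?_⟩
  by_contra hD
  have h1 := hR _ (hic (pow_mem ha n)) _ (hic hk') (not_lt.1 hD)
  have h2 := hom_nat (pw_add hex a) 1 n
  rw [mul_one, pw_one] at h2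
  have h3 := hS n (by rw [h2, mem_closedBall, dist_comm]; exact h1)
  linarith [le_abs_self (n : ℝ)]

theorem main [Group.IsNilpotent G] {E : Type} [NormedAddCommGroup E] [NormedSpace ℝ E]
    [FiniteDimensional ℝ E] {ex : E ≃ₜ G}
    (hex : ∀ (X : E) (s t : ℝ), ex ((s + t) • X) = ex (s • X) * ex (t • X)) (hmid : Mid G) :
    (∀ f : G → G, (∃ L C : ℝ, 1 ≤ L ∧ 0 ≤ C ∧
        (∀ p q, L⁻¹ * dist p q - C ≤ dist (f p) (f q) ∧ dist (f p) (f q) ≤ L * dist p q + C) ∧
        ∀ q, ∃ p, dist q (f p) ≤ C) →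
      ∀ i : ℕ, (⊤ : Subgroup G).lowerCentralSeries i ≠ ⊥ → ∃ D : ℝ, ∀ g : G, ∃ h : G,
        hausdorffEDist (f '' (g • ((⊤ : Subgroup G).lowerCentralSeries i : Set G)))
          (h • ((⊤ : Subgroup G).lowerCentralSeries i : Set G)) ≤ ENNReal.ofReal D) ↔
    ∀ a b : G, a * b = b * a := by
  constructor
  · intro H
    by_contra hnc
    obtain ⟨f, ⟨C, hC, hf⟩, hs, i, hi, hfar⟩ := breaks hex hmid hnc
    obtain ⟨D, hD⟩ := H f ⟨2, C, one_le_two, hC, hf, fun q => (hs q).imp fun p hp => by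
      rw [hp, dist_self]; exact hC⟩ i hi
    obtain ⟨h, hh⟩ := hD 1
    obtain ⟨k, hk, hk'⟩ := hfar h (|D| + 1)
    obtain ⟨y, ⟨k', hk2, rfl⟩, hy⟩ := exists_edist_lt_of_hausdorffEDist_lt (x := f k)
      (r := ENNReal.ofReal (|D| + 1))
      (Set.mem_image_of_mem f (by rw [one_smul]; exact hk)) (hh.trans_lt
        ((ENNReal.ofReal_lt_ofReal_iff (by positivity)).2 (by linarith [le_abs_self D])))
    rw [edist_lt_ofReal] at hy
    exact lt_asymm hy (hk' k' hk2)
  · rintro hc f ⟨L, C, -, hC, -, hf⟩ i hi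
    have h0 : i = 0 := by
      by_contra h0
      apply hi
      refine le_bot_iff.1 ((Subgroup.lowerCentralSeries_antitone ⊤
        (Nat.one_le_iff_ne_zero.2 h0)).trans (le_of_eq ?_))
      rw [Subgroup.lowerCentralSeries_succ, Subgroup.commutator_eq_bot_iff_le_centralizer]
      exact fun a _ b _ => hc b a
    subst h0
    refine ⟨C, fun g => ⟨1, ?_⟩⟩
    rw [Subgroup.lowerCentralSeries_zero, Subgroup.coe_top, Set.smul_set_univ, Set.smul_set_univ]
    refine hausdorffEDist_le_of_mem_edist (fun x _ => ⟨x, trivial, by simp⟩) fun x _ => ?_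
    obtain ⟨p, hp⟩ := hf x
    exact ⟨f p, ⟨p, trivial, rfl⟩, (edist_le_ofReal hC).2 hp⟩

end Pool.Agent.Lib.MP_40d5d3_al.All
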